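import Pool.Agent.Helper4.TL.StD

/-!
# Project TL, module LBof: lower bound, assembly
-/

set_option autoImplicit false

namespace Pool.Agent.Helper77.TL

open Pool.Agent.Helper4.TL
open Pool.Agent.Helper14.CV (Homog EqC act Tl Tl_add Tl_smul)
open Pool.Agent.Helper28.WK (Tw evw)
open Pool.Agent.Helper14.W5 (Tw_add Tw_smul)
open Pool.Agent.Helper93.TLE (DDE ddE5 LBE)

private theorem unit_det {ι : Type} [Fintype ι] [DecidableEq ι] (k1 k2 k3 : ι → ℕ)
    (hinj : ∀ t u, k1 t = k1 u → k3 t = k3 u → k2 t = k2 u → t = u) (M : Matrix ι ι ℤ)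
    (hd : ∀ t, ((M t t : ℤ) : ZMod 5) ≠ 0)
    (hM : ∀ t u, ((M t u : ℤ) : ZMod 5) ≠ 0 → k1 u < k1 t ∨ (k1 u = k1 t ∧ k3 u = k3 t ∧ k2 u ≤ k2 t)) :
    M.det ≠ 0 := by
  have : Fact (Nat.Prime 5) := ⟨Nat.prime_five⟩
  intro h0
  have h1 : (M.map (fun x : ℤ => (x : ZMod 5))).det = 0 := by
    have := Int.cast_det (R := ZMod 5) M
    rw [h0] at this
    rw [← this]
    simp
  obtain ⟨v, hv, hz⟩ := Matrix.exists_vecMul_eq_zero_iff.2 h1
  have hne : (Finset.univ.filter fun t => v t ≠ 0).Nonempty := by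
    by_contra hc
    rw [Finset.not_nonempty_iff_eq_empty, Finset.filter_eq_empty_iff] at hc
    apply hv
    funext t
    simpa using hc (Finset.mem_univ t)
  obtain ⟨t0, ht0, hmax⟩ := Finset.exists_max_image _ (fun t => (toLex (k1 t, k2 t) : ℕ ×ₗ ℕ)) hne
  have hz0 := congrFun hz t0
  rw [Matrix.vecMul, dotProduct] at hz0
  rw [Finset.sum_eq_single t0] at hz0
  · simp only [Matrix.map_apply, Pi.zero_apply] at hz0
    rcases mul_eq_zero.1 hz0 with h | h
    · exact (Finset.mem_filter.1 ht0).2 h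
    · exact hd t0 h
  · intro t _ htn
    by_cases hvt : v t = 0
    · rw [hvt, zero_mul]
    · by_cases hm : ((M t t0 : ℤ) : ZMod 5) = 0
      · simp only [Matrix.map_apply, hm, mul_zero]
      · exfalso
        have h2 := hmax t (Finset.mem_filter.2 ⟨Finset.mem_univ _, hvt⟩)
        simp only [Prod.Lex.le_iff, ofLex_toLex] at h2
        have h3 := hM t t0 hm
        apply htn
        apply hinj
        · omega
        · omega
        · omega
  · intro h
    exact absurd (Finset.mem_univ _) h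

/-! ### The values `evE` as linear maps -/

/-- The Hecke operator as a linear map. -/
private def TlL (l : ℕ) : Module.End ℂ (ℤ → ℤ → ℂ) where
  toFun G := Tl l 2 G
  map_add' G H := Tl_add l 2 G H
  map_smul' s G := Tl_smul s l 2 G

private def eU : Module.End ℂ (ℤ → ℤ → ℂ) := TlL 3 * TlL 3 + 1

private def eV : Module.End ℂ (ℤ → ℤ → ℂ) :=
  TlL 7 * TlL 7 - (2 : ℤ) • (TlL 3 * TlL 7) - (2 : ℤ) • 1

private def eO : Module.End ℂ (ℤ → ℤ → ℂ) := TlL 3 * TlL 3 - TlL 3 - 1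

/-- The value on the central path. -/
private def dl : (ℤ → ℤ → ℂ) →ₗ[ℂ] ℂ where
  toFun G := G 1 0 - G 0 1
  map_add' G H := by simp only [Pi.add_apply]; ring
  map_smul' s G := by simp only [Pi.smul_apply, smul_eq_mul, RingHom.id_apply]; ring

private theorem coe_eU : (eU : (ℤ → ℤ → ℂ) → (ℤ → ℤ → ℂ)) = UoE 2 := rfl

private theorem coe_eV : (eV : (ℤ → ℤ → ℂ) → (ℤ → ℤ → ℂ)) = VoE 2 := rfl

private theorem coe_eO : (eO : (ℤ → ℤ → ℂ) → (ℤ → ℤ → ℂ)) = OoE 2 := rfl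

private theorem evE_lin (G : ℤ → ℤ → ℂ) (c i j : ℕ) :
    evE 2 G c i j = (dl ∘ₗ (eO ^ c * eU ^ i * eV ^ j)) G := by
  rw [LinearMap.comp_apply, Module.End.mul_apply, Module.End.mul_apply, Module.End.pow_apply,
    Module.End.pow_apply, Module.End.pow_apply, coe_eU, coe_eV, coe_eO]
  rfl

/-! ### Functions killed by all words -/

private def Ker (K : ℤ → ℤ → ℂ) : Prop := ∀ ls : List ℕ, OkE 5 ls → evw 2 ls K = 0

private theorem Tw_append (ls : List ℕ) (l : ℕ) (G : ℤ → ℤ → ℂ) :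
    Tw 2 (ls ++ [l]) G = Tw 2 ls (Tl l 2 G) := by
  induction ls with
  | nil => rfl
  | cons a ls ih =>
    show Tl a 2 (Tw 2 (ls ++ [l]) G) = Tl a 2 (Tw 2 ls (Tl l 2 G))
    rw [ih]

private theorem Ker.T {K : ℤ → ℤ → ℂ} (h : Ker K) {l : ℕ} (hl : l.Prime) (h5 : l ≠ 5) (h2 : l ≠ 2) :
    Ker (Tl l 2 K) := by
  intro ls hls
  have h1 := h (ls ++ [l]) (fun a ha => by
    rcases List.mem_append.1 ha with h | h
    · exact hls a h
    · rw [List.mem_singleton.1 h]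
      exact ⟨hl, h5, h2⟩)
  simp only [evw, Tw_append] at h1
  exact h1

private theorem Ker.add {K L : ℤ → ℤ → ℂ} (h : Ker K) (h' : Ker L) : Ker (K + L) := by
  intro ls hls
  have h1 := h ls hls
  have h2 := h' ls hls
  simp only [evw] at h1 h2
  simp only [evw, Tw_add, Pi.add_apply]
  linear_combination h1 + h2

private theorem Ker.smul {K : ℤ → ℤ → ℂ} (h : Ker K) (s : ℤ) : Ker (s • K) := by
  intro ls hls
  have h1 := h ls hls
  simp only [evw] at h1
  simp only [evw, Tw_smul, Pi.smul_apply, ← smul_sub, h1, smul_zero]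

private theorem Ker.sub {K L : ℤ → ℤ → ℂ} (h : Ker K) (h' : Ker L) : Ker (K - L) := by
  have e : K - L = K + (-1 : ℤ) • L := by
    rw [neg_one_smul, sub_eq_add_neg]
  rw [e]
  exact h.add (h'.smul _)

private theorem Ker.iter {f : (ℤ → ℤ → ℂ) → (ℤ → ℤ → ℂ)} (hf : ∀ K, Ker K → Ker (f K)) (n : ℕ)
    {K : ℤ → ℤ → ℂ} (h : Ker K) : Ker (f^[n] K) := by
  induction n with
  | zero => exact h
  | succ n ih =>
    rw [Function.iterate_succ_apply']
    exact hf _ ih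

private theorem Ker.ev {K : ℤ → ℤ → ℂ} (h : Ker K) (c i j : ℕ) : evE 2 K c i j = 0 := by
  have t3 : ∀ K : ℤ → ℤ → ℂ, Ker K → Ker (Tl 3 2 K) := fun K hK =>
    hK.T Nat.prime_three (by norm_num) (by norm_num)
  have t7 : ∀ K : ℤ → ℤ → ℂ, Ker K → Ker (Tl 7 2 K) := fun K hK =>
    hK.T (by norm_num) (by norm_num) (by norm_num)
  have hU : ∀ K : ℤ → ℤ → ℂ, Ker K → Ker (UoE 2 K) := fun K hK =>
    (t3 _ (t3 K hK)).add hK
  have hV : ∀ K : ℤ → ℤ → ℂ, Ker K → Ker (VoE 2 K) := fun K hK =>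
    ((t7 _ (t7 K hK)).sub ((t3 _ (t7 K hK)).smul 2)).sub (hK.smul 2)
  have hO : ∀ K : ℤ → ℤ → ℂ, Ker K → Ker (OoE 2 K) := fun K hK =>
    ((t3 _ (t3 K hK)).sub (t3 K hK)).sub hK
  have h1 := Ker.iter hO c (Ker.iter hU i (Ker.iter hV j h)) []
    (fun a ha => absurd ha List.not_mem_nil)
  exact h1

private theorem core (r s N n : ℕ) (I : Finset (ℕ × ℕ × ℕ))
    (hI : ∀ t ∈ I, t.1 ≤ 1 ∧ t.2.1 + 5 * t.2.2 + 2 * t.1 < 5 ^ r ∧ t.2.1 + t.2.2 < 5 ^ s)
    (hN : I.card = N) (hn : r + (s + 1) = n) (hTri : TTri) (hLif : TLif) (hUnb : TUnb) :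
    ∃ G : Fin N → (ℤ → ℤ → ℂ), (∀ k, SymE 5 0 n (G k)) ∧
      LinearIndependent ℂ (fun k => evLE 5 (G k)) := by
  have h1 : ∀ t : I, ∃ (G : ℤ → ℤ → ℂ) (m : ℕ → ℕ → ℕ → ℤ), SymE 5 0 n G ∧
      (∀ c i j, evE 2 G c i j = ((m c i j : ℤ) : ℂ)) ∧
      (((m t.1.1 t.1.2.1 t.1.2.2 : ℤ) : ZMod 5) ≠ 0) ∧
      ∀ c i j, c ≤ 1 → (((m c i j : ℤ) : ZMod 5) ≠ 0 →
        (2 * i + 6 * j + 2 * c < 2 * t.1.2.1 + 6 * t.1.2.2 + 2 * t.1.1 ∨
          (2 * i + 6 * j + 2 * c = 2 * t.1.2.1 + 6 * t.1.2.2 + 2 * t.1.1 ∧ c = t.1.1 ∧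
            i + j ≤ t.1.2.1 + t.1.2.2))) := by
    intro t
    obtain ⟨hc, ha, hb⟩ := hI t.1 t.2
    obtain ⟨g, hg, hg1, hg2⟩ := hTri r s t.1.1 t.1.2.1 t.1.2.2 hc ha hb
    obtain ⟨G, hG, hGe⟩ := hLif r s g hg
    obtain ⟨hS, hE⟩ := hUnb r (s + 1) G hG
    refine ⟨_, fun c i j => evE (2 * 5 ^ r) G c i j, hn ▸ hS, hE, ?_, ?_⟩
    · show ((evE (2 * 5 ^ r) G t.1.1 t.1.2.1 t.1.2.2 : ℤ) : ZMod 5) ≠ 0
      rw [hGe]
      exact hg1
    · intro c i j hc' hij
      apply hg2 c i j hc'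
      rw [← hGe]
      exact hij
  choose G m hS hE hd hM using h1
  let M : Matrix I I ℤ := fun t u => m t u.1.1 u.1.2.1 u.1.2.2
  have hdet : M.det ≠ 0 := by
    refine unit_det (fun t : I => 2 * t.1.2.1 + 6 * t.1.2.2 + 2 * t.1.1)
      (fun t : I => t.1.2.1 + t.1.2.2) (fun t : I => t.1.1) ?_ M
      (fun t => hd t) (fun t u htu => hM t _ _ _ (hI u.1 u.2).1 htu)
    intro t u h2 h4 h3
    have ht := (hI t.1 t.2).1
    have hu := (hI u.1 u.2).1
    apply Subtype.ext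
    apply Prod.ext
    · omega
    · apply Prod.ext
      · omega
      · omega
  have hdetC : (M.map (fun x : ℤ => (x : ℂ))).det ≠ 0 := by
    have := Int.cast_det (R := ℂ) M
    rw [← this]
    exact_mod_cast hdet
  have hli : LinearIndependent ℂ (fun t : I => evLE 5 (G t)) := by
    rw [Fintype.linearIndependent_iff]
    intro g hg
    have hH : evLE 5 (∑ t, g t • G t) = 0 := by
      rw [map_sum]
      simp only [map_smul]
      exact hg
    have hker : Ker (∑ t, g t • G t) := by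
      intro ls hls
      have h2 := congrFun hH ls
      have h3 : evLE 5 (∑ t, g t • G t) ls = evw 2 ls (∑ t, g t • G t) := if_pos hls
      rw [h3] at h2
      exact h2
    have hrel : Matrix.vecMul g (M.map (fun x : ℤ => (x : ℂ))) = 0 := by
      funext u
      have h2 := hker.ev u.1.1 u.1.2.1 u.1.2.2
      rw [evE_lin, map_sum] at h2
      simp only [map_smul, ← evE_lin, hE, smul_eq_mul] at h2
      exact h2
    exact fun t => congrFun (Matrix.eq_zero_of_vecMul_eq_zero hdetC hrel) t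
  let e : Fin N ≃ I := (I.equivFinOfCardEq hN).symm
  exact ⟨fun k => G (e k), fun k => hS (e k), hli.comp e e.injective⟩

theorem hLBof : TLBof := by
  intro hTri hLif hUnb hCnt n hn
  rcases Nat.even_or_odd' n with ⟨k, hk | hk⟩
  · subst hk
    refine core k (k - 1) _ _ _ ?_ (hCnt.1 k (by omega)) (by omega) hTri hLif hUnb
    intro t ht
    have h1 := Finset.mem_filter.1 ht
    have h2 := (Finset.mem_product.1 h1.1).1
    exact ⟨Nat.lt_succ_iff.1 (Finset.mem_range.1 h2), h1.2⟩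
  · subst hk
    refine core k k _ _ _ ?_ (hCnt.2 k (by omega)) (by omega) hTri hLif hUnb
    intro t ht
    have h1 := Finset.mem_filter.1 ht
    have h2 := (Finset.mem_product.1 h1.1).1
    exact ⟨Nat.lt_succ_iff.1 (Finset.mem_range.1 h2), h1.2⟩

end Pool.Agent.Helper77.TL
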